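import Pool.Agent.P.MP_09c11a_nt.W.IfaceD

/-! Large primitive prime divisors of `a ^ n - b ^ n`. -/

set_option autoImplicit false
set_option linter.unusedVariables false
set_option linter.unusedSectionVars false

namespace Pool.Agent.P.MP_7aad9f_nt.LP

open Finset Filter Pool.Agent.P.MP_09c11a_nt.W

theorem lpf_succ (B a : ℕ) (hB : 1 ≤ B) : (a + 1) ^ B ≤ B ^ B * 2 ^ a :=
  calc (a + 1) ^ B ≤ (B * 2 ^ (a / B)) ^ B := Nat.pow_le_pow_left
        ((Nat.lt_mul_div_succ a hB).trans_le (Nat.mul_le_mul_left _ Nat.lt_two_pow_self)) _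
    _ = B ^ B * 2 ^ (a / B * B) := by rw [mul_pow, ← pow_mul]
    _ ≤ B ^ B * 2 ^ a :=
      Nat.mul_le_mul_left _ (Nat.pow_le_pow_right (by omega) (Nat.div_mul_le_self a B))

theorem lpf_div (B : ℕ) (hB : 1 ≤ B) :
    ∃ C : ℕ, ∀ n : ℕ, n ≠ 0 → n.divisors.card ^ B ≤ C * n := by
  have hBB : 1 ≤ B ^ B := Nat.one_le_pow _ _ hB
  refine ⟨(B ^ B) ^ (2 ^ B), fun n hn => ?_⟩
  rw [Nat.card_divisors hn, ← Finset.prod_pow]
  have h1 : ∏ p ∈ n.primeFactors, (n.factorization p + 1) ^ B ≤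
      ∏ p ∈ n.primeFactors, ((if p < 2 ^ B then B ^ B else 1) * p ^ n.factorization p) := by
    refine Finset.prod_le_prod' fun p hp => ?_
    have hp2 := (Nat.prime_of_mem_primeFactors hp).two_le
    split_ifs with h
    · exact (lpf_succ B _ hB).trans (Nat.mul_le_mul_left _ (Nat.pow_le_pow_left hp2 _))
    · rw [one_mul]
      calc (n.factorization p + 1) ^ B ≤ (2 ^ n.factorization p) ^ B :=
            Nat.pow_le_pow_left Nat.lt_two_pow_self _
        _ = (2 ^ B) ^ n.factorization p := by rw [← pow_mul, ← pow_mul, mul_comm]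
        _ ≤ p ^ n.factorization p := Nat.pow_le_pow_left (by omega) _
  refine h1.trans ?_
  rw [Finset.prod_mul_distrib, show ∏ p ∈ n.primeFactors, p ^ n.factorization p = n from
    Nat.prod_factorization_pow_eq_self hn, ← Finset.prod_filter, Finset.prod_const]
  exact Nat.mul_le_mul_right _ (Nat.pow_le_pow_right hBB ((Finset.card_le_card fun p hp =>
    Finset.mem_range.2 (Finset.mem_filter.1 hp).2).trans_eq (Finset.card_range _)))

theorem lpf_small {θ : ℝ} (hθ : θ < 1) (c : ℝ) : ∀ᶠ n : ℕ in atTop, c * (n : ℝ) ^ θ ≤ n := by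
  have h := ((tendsto_rpow_atTop (sub_pos.2 hθ)).comp tendsto_natCast_atTop_atTop).eventually_ge_atTop c
  filter_upwards [h, eventually_gt_atTop 0] with n h1 h2
  have h0 : (0 : ℝ) < n := Nat.cast_pos.2 h2
  calc c * (n : ℝ) ^ θ ≤ (n : ℝ) ^ (1 - θ) * n ^ θ :=
        mul_le_mul_of_nonneg_right h1 (Real.rpow_nonneg h0.le _)
    _ = n := by rw [← Real.rpow_add h0, sub_add_cancel, Real.rpow_one]

theorem lpf_log {m : ℕ} (S : Finset ℕ) :
    ∑ p ∈ S, (m.factorization p : ℝ) * Real.log p ≤ Real.log m := by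
  rw [Real.log_nat_eq_sum_factorization, Finsupp.sum]
  refine (sum_subset (s₁ := S ∩ m.factorization.support) inter_subset_left fun p h1 h2 => ?_).ge.trans
    (sum_le_sum_of_subset_of_nonneg inter_subset_right fun p _ _ =>
      mul_nonneg (Nat.cast_nonneg _) (Real.log_natCast_nonneg p))
  rw [Finsupp.notMem_support_iff.1 fun h => h2 (mem_inter.2 ⟨h1, h⟩), Nat.cast_zero, zero_mul]

/-- The part of `log (a ^ d - b ^ d)` coming from the primes that do not occur earlier. -/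
noncomputable def pr (a b d : ℕ) : ℝ :=
  ∑ p ∈ (a ^ d - b ^ d).primeFactors with ∀ e ∈ Ioo 0 d, ¬p ∣ a ^ e - b ^ e,
    ((a ^ d - b ^ d).factorization p : ℝ) * Real.log p

section

variable {a b : ℕ} (hb : 0 < b) (hab : b < a) (cop : a.Coprime b)
include hb hab cop

theorem lpf_ne {n : ℕ} (hn : n ≠ 0) : a ^ n - b ^ n ≠ 0 :=
  Nat.sub_ne_zero_of_lt (Nat.pow_lt_pow_left hab hn)

theorem lpf_mono {k l : ℕ} (hl : l ≠ 0) (hk : k ∣ l) (p : ℕ) :
    (a ^ k - b ^ k).factorization p ≤ (a ^ l - b ^ l).factorization p :=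
  Nat.factorization_le_factorization_of_dvd_right (Nat.pow_sub_pow_dvd_pow_sub_pow a b hk)
    (lpf_ne hb hab cop fun h0 => hl (by simpa [h0] using hk)) (lpf_ne hb hab cop hl)

theorem lpf_not {n p : ℕ} (hn : n ≠ 0) (hp : p.Prime) (h : p ∣ a ^ n - b ^ n) : ¬p ∣ a := fun h2 =>
  hp.one_lt.ne' (Nat.eq_one_of_dvd_coprimes cop h2 (hp.dvd_of_dvd_pow
    ((Nat.dvd_sub_iff_right (Nat.pow_le_pow_left hab.le n) (h2.trans (dvd_pow_self a hn))).1 h)))

theorem lpf_ord {n p : ℕ} (hn : n ≠ 0) (hp : p.Prime) (h : p ∣ a ^ n - b ^ n) :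
    ∃ d, d ∣ p - 1 ∧ ∀ k, p ∣ a ^ k - b ^ k ↔ d ∣ k := by
  have := Fact.mk hp
  have ha : (a : ZMod p) ≠ 0 := fun h2 =>
    lpf_not hb hab cop hn hp h ((ZMod.natCast_eq_zero_iff a p).1 h2)
  have h2 : ∀ k, p ∣ a ^ k - b ^ k ↔ ((b : ZMod p) / a) ^ k = 1 := fun k => by
    rw [← Nat.modEq_iff_dvd' (Nat.pow_le_pow_left hab.le k), ← ZMod.natCast_eq_natCast_iff,
      Nat.cast_pow, Nat.cast_pow, div_pow, div_eq_one_iff_eq (pow_ne_zero k ha)]
  refine ⟨orderOf ((b : ZMod p) / a), ZMod.orderOf_dvd_card_sub_one fun h3 => ?_,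
    fun k => (h2 k).trans orderOf_dvd_iff_pow_eq_one.symm⟩
  have := (h2 n).1 h
  rw [h3, zero_pow hn] at this
  exact zero_ne_one this

theorem lpf_lte {n d p : ℕ} (hn : n ≠ 0) (hp : p.Prime) (hd : d ∣ n) (h : p ∣ a ^ d - b ^ d) :
    (a ^ n - b ^ n).factorization p ≤
      (a ^ d - b ^ d).factorization p + (n * (a + b)).factorization p := by
  have := Fact.mk hp
  obtain ⟨k, hk⟩ := hd
  have d0 : d ≠ 0 := fun h0 => hn (by rw [hk, h0, zero_mul])
  have k0 : k ≠ 0 := fun h0 => hn (by rw [hk, h0, mul_zero])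
  have ha := lpf_not hb hab cop d0 hp h
  rw [Nat.factorization_mul hn (by omega), Finsupp.add_apply]
  rcases hp.eq_two_or_odd' with rfl | hodd
  · obtain ⟨e, h1, h2⟩ := lpf_ord hb hab cop d0 hp h
    have h3 := (h2 1).2 h1
    have h4 := lpf_mono hb hab cop d0 (one_dvd d) 2
    rw [pow_one, pow_one] at h3 h4
    refine (lpf_mono hb hab cop (by omega) (dvd_mul_left n 2) 2).trans ?_
    have h5 := padicValNat.pow_two_sub_pow hab h3 ha (n := 2 * n) (by omega) (even_two_mul n)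
    rw [padicValNat.mul two_ne_zero hn, padicValNat_self] at h5
    simp only [Nat.factorization_def _ hp] at h4 ⊢
    omega
  · have h3 := padicValNat.pow_sub_pow hodd (Nat.pow_lt_pow_left hab d0) h
      (fun h4 => ha (hp.dvd_of_dvd_pow h4)) k0
    rw [← pow_mul, ← pow_mul, ← hk, ← Nat.factorization_def _ hp, ← Nat.factorization_def _ hp,
      ← Nat.factorization_def _ hp] at h3
    have := Nat.factorization_le_factorization_of_dvd_right (a := p) (Dvd.intro_left d hk.symm) k0 hn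
    omega

theorem lpf_sum {m : ℕ} (hm : m ≠ 0) :
    |∑ d ∈ m.divisors, pr a b d - m * Real.log a| ≤ Real.log a + Real.log (m * (a + b) : ℕ) := by
  have hM := lpf_ne hb hab cop hm
  have a0 : (0 : ℝ) < a := by exact_mod_cast hb.trans hab
  have la : 0 ≤ Real.log a := Real.log_natCast_nonneg a
  have h1 : (m - 1) * Real.log a ≤ Real.log (a ^ m - b ^ m : ℕ) := by
    obtain ⟨m, rfl⟩ := Nat.exists_eq_succ_of_ne_zero hm
    have e : a ^ m ≤ a ^ (m + 1) - b ^ (m + 1) := by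
      have e1 := Nat.mul_le_mul_right b (Nat.pow_le_pow_left hab.le m)
      have e2 := Nat.mul_le_mul_left (a ^ m) (Nat.succ_le_of_lt hab)
      rw [pow_succ, pow_succ]
      rw [Nat.mul_succ] at e2
      omega
    rw [Nat.cast_succ, add_sub_cancel_right, ← Real.log_pow]
    exact Real.log_le_log (by positivity) (by exact_mod_cast e)
  have h2 : Real.log (a ^ m - b ^ m : ℕ) ≤ m * Real.log a := by
    rw [← Real.log_pow, ← Nat.cast_pow]
    exact Real.log_le_log (by exact_mod_cast Nat.pos_of_ne_zero hM) (Nat.cast_le.2 (Nat.sub_le _ _))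
  choose! o ho using fun p (hp : p ∈ (a ^ m - b ^ m).primeFactors) =>
    lpf_ord hb hab cop hm (Nat.prime_of_mem_primeFactors hp) (Nat.dvd_of_mem_primeFactors hp)
  have om := fun p hp => ((ho p hp).2 m).1 (Nat.dvd_of_mem_primeFactors hp)
  have h3 : ∑ d ∈ m.divisors, pr a b d = ∑ p ∈ (a ^ m - b ^ m).primeFactors,
      ((a ^ o p - b ^ o p).factorization p : ℝ) * Real.log p := by
    rw [← sum_fiberwise_of_maps_to (t := m.divisors) (g := o) fun p hp =>
      Nat.mem_divisors.2 ⟨om p hp, hm⟩]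
    refine sum_congr rfl fun d hd => sum_congr (Finset.ext fun p => ?_) fun p hp => by
      rw [(mem_filter.1 hp).2]
    have d0 := Nat.pos_of_mem_divisors hd
    simp only [mem_filter, mem_Ioo]
    refine ⟨fun ⟨h4, h5⟩ => ?_, fun ⟨h4, h5⟩ => ⟨Nat.mem_primeFactors.2
      ⟨Nat.prime_of_mem_primeFactors h4, ((ho p h4).2 d).2 h5.dvd, lpf_ne hb hab cop d0.ne'⟩,
      fun e he h6 => (Nat.le_of_dvd he.1 (h5 ▸ ((ho p h4).2 e).1 h6)).not_gt he.2⟩⟩
    have h6 := Nat.primeFactors_mono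
      (Nat.pow_sub_pow_dvd_pow_sub_pow a b (Nat.dvd_of_mem_divisors hd)) hM h4
    have h7 := ((ho p h6).2 d).1 (Nat.dvd_of_mem_primeFactors h4)
    exact ⟨h6, (Nat.le_of_dvd d0 h7).eq_or_lt.resolve_right fun h8 =>
      h5 _ ⟨Nat.pos_of_dvd_of_pos h7 d0, h8⟩ (((ho p h6).2 _).2 dvd_rfl)⟩
  have h4 : ∑ d ∈ m.divisors, pr a b d ≤ Real.log (a ^ m - b ^ m : ℕ) :=
    h3.trans_le ((sum_le_sum fun p hp => mul_le_mul_of_nonneg_right (Nat.cast_le.2
      (lpf_mono hb hab cop hm (om p hp) p)) (Real.log_natCast_nonneg p)).trans (lpf_log _))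
  have h5 : Real.log (a ^ m - b ^ m : ℕ) ≤
      ∑ d ∈ m.divisors, pr a b d + Real.log (m * (a + b) : ℕ) := by
    rw [Real.log_nat_eq_sum_factorization, Finsupp.sum, Nat.support_factorization, h3]
    refine le_trans ?_ (add_le_add_right (lpf_log (a ^ m - b ^ m).primeFactors) _)
    rw [← sum_add_distrib]
    refine sum_le_sum fun p hp => ?_
    rw [← add_mul, ← Nat.cast_add]
    exact mul_le_mul_of_nonneg_right (Nat.cast_le.2 (lpf_lte hb hab cop hm
      (Nat.prime_of_mem_primeFactors hp) (om p hp) (((ho p hp).2 _).2 dvd_rfl)))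
      (Real.log_natCast_nonneg p)
  have h6 := Real.log_natCast_nonneg (m * (a + b))
  exact abs_le.2 ⟨by linarith, by linarith⟩

theorem lpf_low {n : ℕ} (hn : n ≠ 0) : n.totient * Real.log a ≤
    pr a b n + n.divisors.card * (Real.log a + Real.log (n * (a + b) : ℕ)) := by
  have h := (ArithmeticFunction.sum_eq_iff_sum_smul_moebius_eq (f := fun d => pr a b d -
    d.totient * Real.log a) (g := fun m => ∑ d ∈ m.divisors, pr a b d - m * Real.log a)).1
    (fun m _ => by rw [sum_sub_distrib, ← sum_mul, ← Nat.cast_sum, Nat.sum_totient]) n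
    (Nat.pos_of_ne_zero hn)
  have h1 : |pr a b n - n.totient * Real.log a| ≤
      n.divisors.card * (Real.log a + Real.log (n * (a + b) : ℕ)) := by
    rw [← h, ← nsmul_eq_mul, ← card_map, Nat.map_div_right_divisors]
    refine (abs_sum_le_sum_abs _ _).trans (sum_le_card_nsmul _ _ _ fun x hx => ?_)
    have h2 := Nat.snd_mem_divisors_of_mem_antidiagonal hx
    have h3 := Nat.pos_of_mem_divisors h2
    rw [zsmul_eq_mul, abs_mul, ← Int.cast_abs]
    refine (mul_le_of_le_one_left (abs_nonneg _) (by exact_mod_cast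
      ArithmeticFunction.abs_moebius_le_one)).trans ((lpf_sum hb hab cop h3.ne').trans
      (add_le_add_right (Real.log_le_log (Nat.cast_pos.2 (Nat.mul_pos h3 (by omega)))
        (Nat.cast_le.2 (Nat.mul_le_mul_right _ (Nat.divisor_le h2)))) _))
  linarith [(abs_le.1 h1).1]

theorem lpf_up {n : ℕ} {Y V : ℝ} (hn : n ≠ 0) (hY : 1 ≤ Y) (hV : 0 ≤ V)
    (h : ∀ p : ℕ, p.Prime → p ∣ a ^ n - b ^ n → (∀ e, 0 < e → e < n → ¬p ∣ a ^ e - b ^ e) → n ≤ p →
      p ≤ Y ∧ ((a ^ n - b ^ n).factorization p : ℝ) ≤ V) :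
    pr a b n ≤ (Y / n + 1) * (V * Real.log Y) := by
  set S := (a ^ n - b ^ n).primeFactors.filter fun p => ∀ e ∈ Ioo 0 n, ¬p ∣ a ^ e - b ^ e
  have key : ∀ p ∈ S, p.Prime ∧ n ∣ p - 1 ∧ p ≤ Y ∧ ((a ^ n - b ^ n).factorization p : ℝ) ≤ V :=
    fun p hp => by
      obtain ⟨h1, h2⟩ := mem_filter.1 hp
      have h3 := Nat.prime_of_mem_primeFactors h1
      have h4 := Nat.dvd_of_mem_primeFactors h1
      obtain ⟨d, h5, h6⟩ := lpf_ord hb hab cop hn h3 h4
      have h7 := (h6 n).1 h4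
      obtain rfl : d = n := (Nat.le_of_dvd (Nat.pos_of_ne_zero hn) h7).eq_or_lt.resolve_right
        fun h8 => h2 d (mem_Ioo.2 ⟨Nat.pos_of_dvd_of_pos h7 (Nat.pos_of_ne_zero hn), h8⟩)
          ((h6 d).2 dvd_rfl)
      exact ⟨h3, h5, h p h3 h4 (fun e h1 h3 => h2 e (mem_Ioo.2 ⟨h1, h3⟩))
        ((Nat.le_of_dvd (Nat.sub_pos_of_lt h3.one_lt) h5).trans (Nat.sub_le _ _))⟩
  refine (sum_le_card_nsmul S _ (V * Real.log Y) fun p hp => mul_le_mul (key p hp).2.2.2
    (Real.log_le_log (Nat.cast_pos.2 (key p hp).1.pos) (key p hp).2.2.1)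
    (Real.log_natCast_nonneg p) hV).trans ?_
  rw [nsmul_eq_mul]
  refine mul_le_mul_of_nonneg_right ?_ (mul_nonneg hV (Real.log_nonneg hY))
  have h1 := card_le_card_of_injOn (s := S) (t := range (⌊Y⌋₊ / n + 1)) (fun p => (p - 1) / n)
    (fun p hp => mem_coe.2 (mem_range.2 (Nat.lt_succ_of_le (Nat.div_le_div_right
      ((Nat.sub_le _ _).trans (Nat.le_floor (key p hp).2.2.1)))))) fun p hp q hq e => by
      have e1 := Nat.div_mul_cancel (key p hp).2.1
      rw [show (p - 1) / n = (q - 1) / n from e, Nat.div_mul_cancel (key q hq).2.1] at e1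
      have := (key p hp).1.pos
      have := (key q hq).1.pos
      omega
  rw [card_range] at h1
  refine (Nat.cast_le.2 h1).trans ?_
  rw [Nat.cast_succ]
  exact add_le_add_left (Nat.cast_div_le.trans (div_le_div_of_nonneg_right
    (Nat.floor_le (zero_le_one.trans hY)) (Nat.cast_nonneg n))) 1

theorem lpf_val (hCORE : S_CORE) : ∀ᶠ n : ℕ in atTop, ∀ p : ℕ, p.Prime →
    (n : ℝ) ^ (0.7208 : ℝ) ≤ p → (p : ℝ) ≤ (n : ℝ) ^ (1.279 : ℝ) →
    ((a ^ n - b ^ n).factorization p : ℝ) ≤ (n : ℝ) ^ (0.7208 : ℝ) := by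
  obtain ⟨N0, hN0⟩ := eventually_atTop.1 ((tendsto_pow_const_div_const_pow_of_one_lt 5
    (one_lt_two : (1 : ℝ) < 2)).eventually_lt_const (by norm_num : (0 : ℝ) < 1 / 2))
  have t1 := (tendsto_rpow_atTop (by norm_num : (0 : ℝ) < 0.2792)).comp
    tendsto_natCast_atTop_atTop
  filter_upwards [t1.eventually_ge_atTop N0, lpf_small (by norm_num : (0.2792 : ℝ) < 1) 3,
    (Real.tendsto_log_atTop.comp tendsto_natCast_atTop_atTop).eventually_gt_atTop
      (20000 * (Real.log a + 12)), eventually_ge_atTop 1] with n h1 h2 h3 hn p hp h4 h5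
  by_contra hv
  rw [not_le] at hv
  simp only [Function.comp] at h1 h3
  set v := (a ^ n - b ^ n).factorization p
  have n1 : (1 : ℝ) ≤ n := by exact_mod_cast hn
  have n0 : (0 : ℝ) < n := by linarith only [n1]
  set x := (n : ℝ) ^ (0.2792 : ℝ) with hx
  set y := (n : ℝ) ^ (0.7208 : ℝ) with hy
  have x1 : 1 ≤ x := Real.one_le_rpow n1 (by norm_num)
  have y1 : 1 ≤ y := Real.one_le_rpow n1 (by norm_num)
  have xy : x * y = n := by rw [hx, hy, ← Real.rpow_add n0]; norm_num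
  have v0 : (0 : ℝ) < v := by linarith only [hv, y1]
  have p2 := hp.two_le
  have p0 : (0 : ℝ) < p := by linarith only [h4, y1]
  obtain ⟨r, hr1, hr2⟩ : ∃ r : ℕ, 2 * x ≤ (r : ℝ) + 2 ∧ (r : ℝ) + 2 ≤ 3 * x :=
    ⟨⌈2 * x - 2⌉₊, by linarith only [Nat.le_ceil (2 * x - 2)], by
      linarith only [x1, Nat.ceil_lt_add_one (show 0 ≤ 2 * x - 2 by linarith only [x1])]⟩
  have hrn : r + 2 ≤ n := by exact_mod_cast hr2.trans h2
  set τ := ((r + 2) * (p - 1) + n - 1) / n with hτ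
  have t2 : n * τ ≤ (r + 2) * (p - 1) + n - 1 := Nat.mul_div_le _ _
  have t3 : (r + 2) * (p - 1) ≤ n * τ := by
    have := Nat.lt_mul_div_succ ((r + 2) * (p - 1) + n - 1) hn
    rw [← hτ, mul_add, mul_one] at this
    omega
  have t4 : τ < p := Nat.lt_of_mul_lt_mul_left (a := n) (by
    have := Nat.mul_le_mul_right (p - 1) hrn
    obtain ⟨q, rfl⟩ : ∃ q, p = q + 1 := ⟨p - 1, by omega⟩
    simp only [Nat.add_sub_cancel, mul_add n] at *
    omega)
  have τ0 : 0 < τ := Nat.pos_of_mul_pos_left (lt_of_lt_of_le (Nat.mul_pos (by omega) (by omega)) t3)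
  have t5 : τ < a ^ (r + 1) := by
    have e1 := hN0 (r + 2) (by exact_mod_cast (h1.trans (by linarith only [x1, hr1]) : (N0 : ℝ) ≤ r + 2))
    rw [div_lt_iff₀ (by positivity), pow_succ _ (r + 1)] at e1
    have e2 : (n : ℝ) ^ (1.279 : ℝ) ≤ x ^ 5 := by
      rw [hx, ← Real.rpow_natCast, ← Real.rpow_mul n0.le]
      exact Real.rpow_le_rpow_of_exponent_le n1 (by norm_num)
    have e3 : x ^ 5 ≤ ((r + 2 : ℕ) : ℝ) ^ 5 := by
      push_cast
      exact pow_le_pow_left₀ (by linarith only [x1]) (by linarith only [x1, hr1]) 5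
    have e4 : (p : ℝ) < 2 ^ (r + 1) := by linarith only [e1, e2, e3, h5]
    exact t4.trans ((by exact_mod_cast e4 : p < 2 ^ (r + 1)).trans_le
      (Nat.pow_le_pow_left (by omega) _))
  have hM := lpf_ne hb hab cop (n := n) (by omega)
  have cast : ∀ k, (p : ℤ) ^ k ∣ (a : ℤ) ^ n - (b : ℤ) ^ n ↔ k ≤ v := fun k => by
    rw [← hp.pow_dvd_iff_le_factorization hM, ← Int.natCast_dvd_natCast,
      Nat.cast_sub (Nat.pow_le_pow_left hab.le n)]
    simp only [Nat.cast_pow]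
  have vN : 2 * (n : ℝ) ≤ v * (r + 2) := by
    linarith only [xy, mul_le_mul hv.le hr1 (by linarith only [x1]) v0.le]
  have vN' : 2 * n ≤ v * (r + 2) := by exact_mod_cast vN
  have v1 : 0 < v := by exact_mod_cast v0
  have key := hCORE a b p n v r τ (10000 * v) 8910 4546 hb hab cop hp hn v1 ((cast v).2 le_rfl)
    (by rw [cast]; omega) (by omega) (by rw [mul_assoc]; omega) (by omega) t4 t3 t5
  have w0 : (v : ℝ) * (8910 : ℕ) / (10000 * v : ℕ) = 0.891 := by push_cast; field_simp; norm_num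
  have w1 : (v : ℝ) * (4546 : ℕ) / (10000 * v : ℕ) = 0.4546 := by push_cast; field_simp; norm_num
  rw [Ineq, w0, w1] at key
  have la : 0 ≤ Real.log a := Real.log_natCast_nonneg a
  have l1 : Real.log p ≤ 1.279 * Real.log n := by
    rw [← Real.log_rpow n0]; exact Real.log_le_log p0 h5
  have l3 : Real.log 3 ≤ 2 := by
    linarith only [Real.log_le_sub_one_of_pos (by norm_num : (0 : ℝ) < 3)]
  have l4 : Real.log 4 ≤ 3 := by
    linarith only [Real.log_le_sub_one_of_pos (by norm_num : (0 : ℝ) < 4)]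
  have l2 : Real.log ((r : ℝ) + 2) ≤ Real.log 3 + 0.2792 * Real.log n := by
    rw [← Real.log_rpow n0, ← Real.log_mul (by norm_num) (by positivity)]
    exact Real.log_le_log (by positivity) hr2
  have l5 : Real.log τ + 0.7208 * Real.log n ≤ Real.log 4 + Real.log p := by
    have τ1 : (0 : ℝ) < τ := by exact_mod_cast τ0
    rw [← Real.log_rpow n0, ← Real.log_mul τ1.ne' (by positivity),
      ← Real.log_mul (by norm_num) p0.ne']
    refine Real.log_le_log (by positivity) (le_of_mul_le_mul_left ?_ (one_pos.trans_le x1))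
    have e1 : (n : ℝ) * τ ≤ (r + 2) * p + n := by
      have := Nat.mul_le_mul_left (r + 2) (Nat.sub_le p 1)
      exact_mod_cast (by omega : n * τ ≤ (r + 2) * p + n)
    rw [← hy, mul_left_comm, xy]
    linarith only [e1, xy, mul_le_mul_of_nonneg_right hr2 p0.le,
      mul_le_mul_of_nonneg_left h4 (zero_le_one.trans x1)]
  have l6 : (n : ℝ) / (v * (r + 2)) + 1 / v ≤ 3 / 2 := by
    have e1 : (n : ℝ) / (v * (r + 2)) ≤ 1 / 2 := by
      rw [div_le_iff₀ (by positivity)]; linarith only [vN]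
    have e2 : 1 / (v : ℝ) ≤ 1 := by rw [div_le_iff₀ v0]; linarith only [hv, y1]
    linarith only [e1, e2]
  have l7 : ((0.891 : ℝ) ^ 2 + 0.4546 ^ 2) * Real.log ((r : ℝ) + 2) / v ≤ 3 := by
    have e1 : Real.log ((r : ℝ) + 2) ≤ Real.log n :=
      Real.log_le_log (by positivity) (hr2.trans h2)
    have e2 := Real.log_le_rpow_div n0.le (by norm_num : (0 : ℝ) < 0.7208)
    rw [← hy, le_div_iff₀ (by norm_num)] at e2
    rw [div_le_iff₀ v0]
    linarith only [e1, e2, hv, y1]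
  linarith only [key, h3, la, l1, l2, l3, l4, l5, l7, mul_le_mul_of_nonneg_right l6 la]

theorem lpf_main (hCORE : S_CORE) : ∃ n₀ : ℕ, ∀ n : ℕ, n₀ ≤ n → ∃ p : ℕ, p.Prime ∧
    p ∣ a ^ n - b ^ n ∧ (∀ d, 0 < d → d < n → ¬p ∣ a ^ d - b ^ d) ∧ (n : ℝ) ^ (1.279 : ℝ) < p := by
  obtain ⟨C, hC⟩ := lpf_div 20000 (by norm_num)
  refine eventually_atTop.1 ?_
  set c := (C : ℝ) ^ (0.00005 : ℝ)
  filter_upwards [lpf_val hb hab cop hCORE, eventually_ge_atTop (a + b),
    lpf_small (by norm_num : (0.9999 : ℝ) < 1) (8 * (c * (2 * 1.279 * 20000))),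
    lpf_small (by norm_num : (0.5001 : ℝ) < 1) (8 * (c * c * 6))] with n h1 hn h2 h3
  by_contra! hc
  have n1 : (1 : ℝ) ≤ n := by exact_mod_cast (by omega : 1 ≤ n)
  have n0 : (0 : ℝ) < n := one_pos.trans_le n1
  have hn0 : n ≠ 0 := by omega
  have pw : ∀ s t : ℝ, (n : ℝ) ^ s * n ^ t = n ^ (s + t) := fun s t => (Real.rpow_add n0 s t).symm
  have one : ∀ s : ℝ, 0 ≤ s → 1 ≤ (n : ℝ) ^ s := fun s => Real.one_le_rpow n1
  set x := (n : ℝ) ^ (0.00005 : ℝ) with hx
  have v0 := zero_le_one.trans (one 0.7208 (by norm_num))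
  have k1 := lpf_up hb hab cop hn0 (one 1.279 (by norm_num)) v0 fun p hp h h' h'' =>
    ⟨hc p hp h h', h1 p hp ((Real.rpow_le_self_of_one_le n1 (by norm_num)).trans
      (Nat.cast_le.2 h'')) (hc p hp h h')⟩
  have k2 := lpf_low hb hab cop hn0
  have k3 : (n : ℝ) ≤ n.divisors.card * n.totient := by
    have := sum_le_card_nsmul n.divisors Nat.totient n.totient fun d hd => Nat.le_of_dvd
      (Nat.totient_pos.2 (Nat.pos_of_ne_zero hn0)) (Nat.totient_dvd_of_dvd (Nat.dvd_of_mem_divisors hd))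
    rw [Nat.sum_totient, smul_eq_mul] at this
    exact_mod_cast this
  have k4 : (n.divisors.card : ℝ) ≤ c * x := by
    rw [← Real.mul_rpow (Nat.cast_nonneg _) n0.le,
      (by norm_num : (0.00005 : ℝ) = ((20000 : ℕ) : ℝ)⁻¹),
      Real.le_rpow_inv_iff_of_pos (Nat.cast_nonneg _) (by positivity) (by norm_num),
      Real.rpow_natCast]
    exact_mod_cast hC n hn0
  have la : 1 / 2 ≤ Real.log a := by
    linarith only [Real.log_two_gt_d9, Real.log_le_log two_pos
      (by exact_mod_cast hab.trans_le' hb : (2 : ℝ) ≤ a)]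
  have l1 : Real.log ((n : ℝ) ^ (1.279 : ℝ)) ≤ 1.279 * (20000 * x) := by
    have e := Real.log_le_rpow_div n0.le (by norm_num : (0 : ℝ) < 0.00005)
    rw [← hx, le_div_iff₀ (by norm_num)] at e
    rw [Real.log_rpow n0]
    linarith only [e]
  have l2 : (n : ℝ) ^ (1.279 : ℝ) / n + 1 ≤ 2 * (n : ℝ) ^ (0.279 : ℝ) := by
    rw [← Real.rpow_sub_one n0.ne', (by norm_num : (1.279 : ℝ) - 1 = 0.279)]
    linarith only [one 0.279 (by norm_num)]
  have l3 : n.divisors.card * pr a b n ≤ c * (2 * 1.279 * 20000) * (n : ℝ) ^ (0.9999 : ℝ) := by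
    refine (mul_le_mul_of_nonneg_left (k1.trans (mul_le_mul l2 (mul_le_mul_of_nonneg_left l1 v0)
      (mul_nonneg v0 (Real.log_nonneg (one _ (by norm_num)))) (by positivity)))
      (Nat.cast_nonneg _)).trans ((mul_le_mul_of_nonneg_right k4 (by positivity)).trans_eq ?_)
    rw [(by norm_num : (0.9999 : ℝ) = 0.00005 + 0.279 + 0.7208 + 0.00005), ← pw, ← pw, ← pw]
    ring
  have l4 : Real.log a + Real.log (n * (a + b) : ℕ) ≤ 6 * (n : ℝ) ^ (0.5 : ℝ) := by
    have e := Real.log_le_rpow_div n0.le (by norm_num : (0 : ℝ) < 0.5)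
    rw [le_div_iff₀ (by norm_num)] at e
    have e1 := Real.log_le_log (Nat.cast_pos.2 (hb.trans hab)) (Nat.cast_le.2 (by omega : a ≤ n))
    have e2 := Real.log_le_log (Nat.cast_pos.2 (Nat.mul_pos (by omega) (by omega)))
      (Nat.cast_le.2 (Nat.mul_le_mul_left n hn))
    rw [Nat.cast_mul n n, Real.log_mul n0.ne' n0.ne'] at e2
    linarith only [e, e1, e2]
  have l5 : (n.divisors.card : ℝ) * (n.divisors.card * (Real.log a + Real.log (n * (a + b) : ℕ))) ≤
      c * c * 6 * (n : ℝ) ^ (0.5001 : ℝ) := by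
    refine (mul_le_mul k4 (mul_le_mul k4 l4 (add_nonneg (Real.log_natCast_nonneg _)
      (Real.log_natCast_nonneg _)) (by positivity)) (mul_nonneg (Nat.cast_nonneg _) (add_nonneg
      (Real.log_natCast_nonneg _) (Real.log_natCast_nonneg _))) (by positivity)).trans_eq ?_
    rw [(by norm_num : (0.5001 : ℝ) = 0.00005 + 0.00005 + 0.5), ← pw, ← pw]
    ring
  linarith only [mul_le_mul_of_nonneg_left k2 (Nat.cast_nonneg n.divisors.card), l3, l5, h2, h3, n0,
    mul_le_mul_of_nonneg_right k3 (Real.log_natCast_nonneg a), mul_le_mul_of_nonneg_left la n0.le]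

end

end Pool.Agent.P.MP_7aad9f_nt.LP
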